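import Pool.Agent.MP_c522d4_al.Proof

namespace Pool.Agent.Results.MP_c522d4_al.ZeroProportion

open Pool.Agent.MP_c522d4_al

/-- **Disproof of Q1.** There is a sequence of finite solvable groups whose Fitting heights tend to
infinity while the proportions of zeros in their character tables tend to `0` (not to `1`). -/
theorem result : ∃ (G : ℕ → Type) (_ : ∀ n, Group (G n)) (_ : ∀ n, Finite (G n)),
    (∀ n, Group.IsSolvable (G n)) ∧
    Filter.Tendsto (fun n => fittingHeight (G n)) Filter.atTop Filter.atTop ∧
    Filter.Tendsto (fun n => zeroProportion (G n)) Filter.atTop (nhds 0) := by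
  choose G hG hF hS hn hz using exists_group
  refine ⟨G, hG, hF, hS, ?_, ?_⟩
  · exact Filter.tendsto_atTop_mono hn Filter.tendsto_id
  · apply squeeze_zero _ hz tendsto_one_div_add_atTop_nhds_zero_nat
    intro n
    unfold zeroProportion
    positivity

end Pool.Agent.Results.MP_c522d4_al.ZeroProportion
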